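import Pool.Agent.Y444.RP.Stm

/-! The square of the Sorgenfrey line is not metacompact (job RP-SQ, project of helper444;
proof by helper43). -/

set_option autoImplicit false

namespace Pool.Agent.Y43.RP.SQ

open Set TopologicalSpace
open Pool.Agent.Helper332.NB Pool.Agent.Y444.RP

/-- the identity to the reals -/
def r : Sorg → ℝ := id

/-- the identity from the reals -/
def s : ℝ → Sorg := id

lemma r_s (x : ℝ) : r (s x) = x := rfl

/-- a half open square -/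
def box (x y e : ℝ) : Set (Sorg × Sorg) :=
  {p | (x ≤ r p.1 ∧ r p.1 < x + e) ∧ (y ≤ r p.2 ∧ r p.2 < y + e)}

lemma isOpen_box (hB : BasisStm) (x y e : ℝ) : IsOpen (box x y e) := by
  have h1 : IsOpen (show Set Sorg from (Ico x (x + e) : Set ℝ)) := hB.isOpen ⟨x, x + e, rfl⟩
  have h2 : IsOpen (show Set Sorg from (Ico y (y + e) : Set ℝ)) := hB.isOpen ⟨y, y + e, rfl⟩
  exact h1.prod h2

lemma isOpen_of (hB : BasisStm) (S : Set (Sorg × Sorg))
    (h : ∀ p ∈ S, ∃ e : ℝ, 0 < e ∧ box (r p.1) (r p.2) e ⊆ S) : IsOpen S := by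
  rw [isOpen_iff_forall_mem_open]
  intro p hp
  obtain ⟨e, he, hsub⟩ := h p hp
  exact ⟨_, hsub, isOpen_box hB _ _ e, ⟨⟨le_rfl, by linarith⟩, ⟨le_rfl, by linarith⟩⟩⟩

lemma exists_box (hB : BasisStm) (V : Set (Sorg × Sorg)) (hV : IsOpen V) (x y : ℝ)
    (h : (s x, s y) ∈ V) : ∃ n : ℕ, box x y (1 / ((n : ℝ) + 1)) ⊆ V := by
  have hP := IsTopologicalBasis.prod hB hB
  obtain ⟨W, hW, hxW, hWV⟩ := hP.exists_subset_of_mem_open h hV
  obtain ⟨u, ⟨a1, b1, rfl⟩, v, ⟨a2, b2, rfl⟩, rfl⟩ := hW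
  have hx : a1 ≤ x ∧ x < b1 := hxW.1
  have hy : a2 ≤ y ∧ y < b2 := hxW.2
  obtain ⟨n, hn⟩ := exists_nat_one_div_lt (show 0 < min (b1 - x) (b2 - y) from
    lt_min (by linarith [hx.2]) (by linarith [hy.2]))
  have h1 := min_le_left (b1 - x) (b2 - y)
  have h2 := min_le_right (b1 - x) (b2 - y)
  refine ⟨n, fun p hp => hWV ?_⟩
  obtain ⟨⟨p1, p2⟩, ⟨p3, p4⟩⟩ := hp
  refine ⟨?_, ?_⟩
  · show a1 ≤ r p.1 ∧ r p.1 < b1
    constructor
    · linarith [hx.1]
    · linarith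
  · show a2 ≤ r p.2 ∧ r p.2 < b2
    constructor
    · linarith [hy.1]
    · linarith

/-- the complement of the antidiagonal -/
def G : Set (Sorg × Sorg) := {p | r p.1 + r p.2 ≠ 0}

/-- quadrants at points of the antidiagonal -/
def U (a : ℝ) : Set (Sorg × Sorg) := {p | a ≤ r p.1 ∧ -a ≤ r p.2}

lemma isOpen_G (hB : BasisStm) : IsOpen G := by
  apply isOpen_of hB
  intro p hp
  have hp' : r p.1 + r p.2 ≠ 0 := hp
  rcases lt_or_gt_of_ne hp' with h | h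
  · refine ⟨-(r p.1 + r p.2) / 2, by linarith, fun q hq => ?_⟩
    obtain ⟨⟨q1, q2⟩, ⟨q3, q4⟩⟩ := hq
    show r q.1 + r q.2 ≠ 0
    apply ne_of_lt
    linarith
  · refine ⟨1, one_pos, fun q hq => ?_⟩
    obtain ⟨⟨q1, q2⟩, ⟨q3, q4⟩⟩ := hq
    show r q.1 + r q.2 ≠ 0
    apply ne_of_gt
    linarith

lemma isOpen_U (hB : BasisStm) (a : ℝ) : IsOpen (U a) := by
  apply isOpen_of hB
  intro p hp
  refine ⟨1, one_pos, fun q hq => ?_⟩
  obtain ⟨⟨q1, q2⟩, ⟨q3, q4⟩⟩ := hq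
  obtain ⟨p1, p2⟩ := hp
  exact ⟨p1.trans q1, p2.trans q3⟩

theorem t : BasisStm → SquareStm := by
  intro hB h
  obtain ⟨𝒱, hVo, hVr, hVc, hVf⟩ := h ({G} ∪ range U) (by
    rintro W (hW | ⟨a, rfl⟩)
    · rw [mem_singleton_iff] at hW
      rw [hW]
      exact isOpen_G hB
    · exact isOpen_U hB a) (by
    rw [eq_univ_iff_forall]
    intro p
    by_cases hp : r p.1 + r p.2 = 0
    · exact ⟨U (r p.1), Or.inr ⟨_, rfl⟩, ⟨le_rfl, by linarith⟩⟩
    · exact ⟨G, Or.inl rfl, hp⟩)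
  have hex : ∀ a : ℝ, ∃ V ∈ 𝒱, (s a, s (-a)) ∈ V := by
    intro a
    have : (s a, s (-a)) ∈ ⋃₀ 𝒱 := by
      rw [hVc]
      exact mem_univ _
    exact this
  choose V hV𝒱 hVmem using hex
  have hVU : ∀ a, V a ⊆ U a := by
    intro a
    obtain ⟨W, hW, hsub⟩ := hVr (V a) (hV𝒱 a)
    rcases hW with hW | ⟨b, rfl⟩
    · exfalso
      rw [mem_singleton_iff] at hW
      have h1 : (s a, s (-a)) ∈ W := hsub (hVmem a)
      rw [hW] at h1
      exact h1 (by rw [r_s, r_s]; ring)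
    · have h1 : (s a, s (-a)) ∈ U b := hsub (hVmem a)
      have h2 : b ≤ a := h1.1
      have h3 : -b ≤ -a := h1.2
      have h4 : b = a := by linarith
      rw [← h4]
      rw [← h4] at hsub
      exact hsub
  have hinj : Function.Injective V := by
    intro a b hab
    have h1 : (s a, s (-a)) ∈ U b := hVU b (hab ▸ hVmem a)
    have h2 : b ≤ a := h1.1
    have h3 : -b ≤ -a := h1.2
    linarith
  have hn : ∀ a : ℝ, ∃ n : ℕ, box a (-a) (1 / ((n : ℝ) + 1)) ⊆ V a := fun a =>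
    exists_box hB (V a) (hVo _ (hV𝒱 a)) a (-a) (hVmem a)
  choose n hn using hn
  have hfib : ∃ (m : ℕ) (k : ℤ), {a : ℝ | n a = m ∧ ⌊a * (2 * ((m : ℝ) + 1))⌋ = k}.Infinite := by
    by_contra hcon
    push Not at hcon
    apply Cardinal.not_countable_real
    have hcov : (univ : Set ℝ) ⊆
        ⋃ (m : ℕ), ⋃ (k : ℤ), {a : ℝ | n a = m ∧ ⌊a * (2 * ((m : ℝ) + 1))⌋ = k} := by
      intro a _
      exact mem_iUnion.2 ⟨n a, mem_iUnion.2 ⟨_, rfl, rfl⟩⟩
    refine (countable_iUnion fun m => countable_iUnion fun k => ?_).mono hcov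
    exact (hcon m k).countable
  obtain ⟨m, k, hinf⟩ := hfib
  have hm : (0 : ℝ) < (m : ℝ) + 1 := by positivity
  obtain ⟨d, hd⟩ : ∃ d : ℝ, d = 1 / (2 * ((m : ℝ) + 1)) := ⟨_, rfl⟩
  have hd0 : 0 < d := by rw [hd]; positivity
  have h2d : 1 / ((m : ℝ) + 1) = 2 * d := by
    rw [hd]
    field_simp
  have hkey : ∀ a ∈ {a : ℝ | n a = m ∧ ⌊a * (2 * ((m : ℝ) + 1))⌋ = k},
      (s ((k : ℝ) * d + d), s (-((k : ℝ) * d))) ∈ V a := by
    rintro a ⟨ha, hk⟩
    apply hn a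
    rw [ha, h2d]
    have h1 : (k : ℝ) ≤ a * (2 * ((m : ℝ) + 1)) := by
      rw [← hk]
      exact Int.floor_le _
    have h3 : a * (2 * ((m : ℝ) + 1)) < (k : ℝ) + 1 := by
      rw [← hk]
      exact Int.lt_floor_add_one _
    have h4 : (k : ℝ) * d ≤ a := by
      have := mul_le_mul_of_nonneg_right h1 hd0.le
      have e : a * (2 * ((m : ℝ) + 1)) * d = a := by
        rw [hd]
        field_simp
      linarith
    have h5 : a < (k : ℝ) * d + d := by
      have := mul_lt_mul_of_pos_right h3 hd0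
      have e : a * (2 * ((m : ℝ) + 1)) * d = a := by
        rw [hd]
        field_simp
      linarith
    refine ⟨⟨?_, ?_⟩, ⟨?_, ?_⟩⟩
    · show a ≤ (k : ℝ) * d + d
      linarith
    · show (k : ℝ) * d + d < a + 2 * d
      linarith
    · show -a ≤ -((k : ℝ) * d)
      linarith
    · show -((k : ℝ) * d) < -a + 2 * d
      linarith
  apply hinf
  have h6 := hVf (s ((k : ℝ) * d + d), s (-((k : ℝ) * d)))
  refine Set.Finite.of_finite_image (h6.subset ?_) (hinj.injOn (s := _))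
  rintro _ ⟨a, ha, rfl⟩
  exact ⟨hV𝒱 a, hkey a ha⟩

end Pool.Agent.Y43.RP.SQ
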